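import Mathlib

/-!
# Taylor expansion with remainder, linear in the function
-/

set_option autoImplicit false

open Metric Set

namespace Pool.Agent.H44.ATR

/-- The iterated divided differences at `0`. -/
noncomputable def tD (k : ℕ) (f : ℂ → ℂ) : ℂ → ℂ := (fun g => dslope g 0)^[k] f

theorem tD_zero (f : ℂ → ℂ) : tD 0 f = f := rfl

theorem tD_succ (k : ℕ) (f : ℂ → ℂ) : tD (k + 1) f = dslope (tD k f) 0 := by
  unfold tD
  rw [Function.iterate_succ_apply']

theorem tD_succ' (k : ℕ) (f : ℂ → ℂ) : tD (k + 1) f = tD k (dslope f 0) := by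
  unfold tD
  rw [Function.iterate_succ_apply]

theorem ball_mem_nhds' : ball (0 : ℂ) (1 / 4) ∈ nhds (0 : ℂ) := ball_mem_nhds _ (by norm_num)

theorem tD_diff (k : ℕ) {f : ℂ → ℂ} (hf : DifferentiableOn ℂ f (ball 0 (1 / 4))) :
    DifferentiableOn ℂ (tD k f) (ball 0 (1 / 4)) := by
  induction k with
  | zero => exact hf
  | succ k ih =>
    rw [tD_succ]
    exact (Complex.differentiableOn_dslope ball_mem_nhds').2 ih

theorem dslope_bound {f : ℂ → ℂ} {B : ℝ} (hB : 0 ≤ B)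
    (hf : DifferentiableOn ℂ f (ball 0 (1 / 4)))
    (hb : ∀ ζ ∈ ball (0 : ℂ) (1 / 4), ‖f ζ‖ ≤ B) :
    ∀ ζ ∈ ball (0 : ℂ) (1 / 4), ‖dslope f 0 ζ‖ ≤ 8 * B := by
  intro ζ hζ
  have hm : MapsTo f (ball 0 (1 / 4)) (closedBall (f 0) (2 * B)) := by
    intro z hz
    rw [mem_closedBall, dist_eq_norm]
    have h1 := hb z hz
    have h2 := hb 0 (mem_ball_self (by norm_num))
    have h3 := norm_sub_le (f z) (f 0)
    linarith
  have h := Complex.norm_dslope_le_div_of_mapsTo_ball hf hm hζ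
  refine h.trans (le_of_eq ?_)
  ring

theorem tD_bound (k : ℕ) {f : ℂ → ℂ} {B : ℝ} (hB : 0 ≤ B)
    (hf : DifferentiableOn ℂ f (ball 0 (1 / 4)))
    (hb : ∀ ζ ∈ ball (0 : ℂ) (1 / 4), ‖f ζ‖ ≤ B) :
    ∀ ζ ∈ ball (0 : ℂ) (1 / 4), ‖tD k f ζ‖ ≤ 8 ^ k * B := by
  induction k with
  | zero =>
    intro ζ hζ
    rw [pow_zero, one_mul]
    exact hb ζ hζ
  | succ k ih =>
    intro ζ hζ
    rw [tD_succ, pow_succ', mul_assoc]
    exact dslope_bound (by positivity) (tD_diff k hf) ih ζ hζ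

theorem tD_step (k : ℕ) (f : ℂ → ℂ) (ζ : ℂ) : tD k f ζ = tD k f 0 + ζ * tD (k + 1) f ζ := by
  have h := sub_smul_dslope (tD k f) 0 ζ
  rw [← tD_succ, sub_zero, smul_eq_mul] at h
  rw [h]
  ring

theorem taylor (m : ℕ) (f : ℂ → ℂ) (ζ : ℂ) :
    f ζ = ∑ l ∈ Finset.range m, tD l f 0 * ζ ^ l + ζ ^ m * tD m f ζ := by
  induction m with
  | zero => simp [tD_zero]
  | succ m ih =>
    rw [Finset.sum_range_succ, ih, tD_step m f ζ]
    ring

theorem dslope_sub' {f g : ℂ → ℂ} (hf : DifferentiableAt ℂ f 0) (hg : DifferentiableAt ℂ g 0) :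
    dslope (fun z => f z - g z) 0 = fun z => dslope f 0 z - dslope g 0 z := by
  funext z
  rcases eq_or_ne z 0 with rfl | hz
  · rw [dslope_same, dslope_same, dslope_same]
    exact deriv_fun_sub hf hg
  · rw [dslope_of_ne _ hz, dslope_of_ne _ hz, dslope_of_ne _ hz]
    simp only [slope, vsub_eq_sub, smul_eq_mul, sub_zero]
    ring

theorem tD_sub (k : ℕ) {f g : ℂ → ℂ} (hf : DifferentiableOn ℂ f (ball 0 (1 / 4)))
    (hg : DifferentiableOn ℂ g (ball 0 (1 / 4))) :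
    tD k (fun z => f z - g z) = fun z => tD k f z - tD k g z := by
  induction k with
  | zero => rfl
  | succ k ih =>
    rw [tD_succ, ih, tD_succ, tD_succ]
    exact dslope_sub' ((tD_diff k hf).differentiableAt ball_mem_nhds')
      ((tD_diff k hg).differentiableAt ball_mem_nhds')

theorem dslope_mul_id {h : ℂ → ℂ} (hh : DifferentiableAt ℂ h 0) :
    dslope (fun z => z * h z) 0 = h := by
  funext z
  rcases eq_or_ne z 0 with rfl | hz
  · rw [dslope_same]
    have h1 : HasDerivAt (fun z => z * h z) (1 * h 0 + 0 * deriv h 0) 0 :=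
      (hasDerivAt_id' (0 : ℂ)).mul hh.hasDerivAt
    rw [h1.deriv, one_mul, zero_mul, add_zero]
  · rw [dslope_of_ne _ hz]
    simp only [slope, vsub_eq_sub, smul_eq_mul, sub_zero, zero_mul]
    field_simp

theorem tD_pow_mul (i : ℕ) {h : ℂ → ℂ} (hh : DifferentiableAt ℂ h 0) :
    ∀ l ≤ i, tD l (fun z => z ^ i * h z) = fun z => z ^ (i - l) * h z := by
  intro l
  induction l with
  | zero => intro _; rfl
  | succ l ih =>
    intro hl
    rw [tD_succ, ih (by omega)]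
    have e : (fun z : ℂ => z ^ (i - l) * h z) = fun z => z * (z ^ (i - (l + 1)) * h z) := by
      funext z
      rw [show i - l = (i - (l + 1)) + 1 by omega, pow_succ']
      ring
    rw [e]
    exact dslope_mul_id ((differentiableAt_id.pow _).mul hh)

/-- Taylor coefficients and remainder of `f`, compared with those of `ω ^ i`, where
`ω = ζ + O(ζ ^ 2)`. -/
theorem tay_pow {m i : ℕ} (hi : i < m) {C δ : ℝ} (hC : 0 ≤ C) (hδ : 0 ≤ δ) {f ω : ℂ → ℂ}
    (hf : DifferentiableOn ℂ f (ball 0 (1 / 4))) (hω : DifferentiableOn ℂ ω (ball 0 (1 / 4)))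
    (hb : ∀ ζ ∈ ball (0 : ℂ) (1 / 4), ‖f ζ‖ ≤ C)
    (hd : ∀ ζ ∈ ball (0 : ℂ) (1 / 4), ‖f ζ - ω ζ ^ i‖ ≤ C * δ)
    (h2 : ∀ ζ ∈ ball (0 : ℂ) (1 / 4), ‖ω ζ - ζ‖ ≤ 2 * ‖ζ‖ ^ 2) :
    ∃ (T : ℕ → ℂ) (ρ : ℂ → ℂ), (∀ l, ‖T l‖ ≤ 8 ^ m * C) ∧
      (∀ l ≤ i, ‖T l - (if l = i then 1 else 0)‖ ≤ 8 ^ m * C * δ) ∧
      ∀ ζ : ℂ, ‖ζ‖ < 1 / 4 → ‖ρ ζ‖ ≤ 8 ^ m * C ∧
        f ζ = ∑ l ∈ Finset.range m, T l * ζ ^ l + ζ ^ m * ρ ζ := by
  have h0 : (0 : ℂ) ∈ ball (0 : ℂ) (1 / 4) := mem_ball_self (by norm_num)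
  have hpow : ∀ l, l ≤ m → ∀ B : ℝ, 0 ≤ B → 8 ^ l * B ≤ 8 ^ m * B := fun l hl B hB =>
    mul_le_mul_of_nonneg_right (pow_le_pow_right₀ (by norm_num) hl) hB
  have hω0 : ω 0 = 0 := by
    have h := h2 0 h0
    rw [norm_zero, sub_zero] at h
    have h' : ‖ω 0‖ ≤ 0 := by simpa using h
    exact norm_le_zero_iff.mp h'
  have hω1 : deriv ω 0 = 1 := by
    have hda : HasDerivAt ω (deriv ω 0) 0 := (hω.differentiableAt ball_mem_nhds').hasDerivAt
    have hdb : HasDerivAt ω 1 0 := by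
      rw [hasDerivAt_iff_isLittleO]
      have e : (fun x' : ℂ => ω x' - ω 0 - (x' - 0) • (1 : ℂ)) = fun z => ω z - z := by
        funext z
        rw [hω0]
        simp
      rw [e]
      have hO : (fun z : ℂ => ω z - z) =O[nhds 0] fun z : ℂ => ‖z - 0‖ ^ 2 := by
        refine Asymptotics.IsBigO.of_bound 2 ?_
        filter_upwards [ball_mem_nhds'] with z hz
        rw [sub_zero, norm_pow, norm_norm]
        exact h2 z hz
      refine hO.trans_isLittleO ?_
      have := Asymptotics.isLittleO_pow_sub_sub (0 : ℂ) (m := 2) (by norm_num)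
      exact this
    exact hda.unique hdb
  -- the factorisation
  set h : ℂ → ℂ := dslope ω 0 with hh
  have hfac : ∀ z, ω z = z * h z := by
    intro z
    have := sub_smul_dslope ω 0 z
    rw [sub_zero, smul_eq_mul, hω0, sub_zero] at this
    exact this.symm
  have hhd : DifferentiableOn ℂ h (ball 0 (1 / 4)) :=
    (Complex.differentiableOn_dslope ball_mem_nhds').2 hω
  have hh0 : h 0 = 1 := by rw [hh, dslope_same, hω1]
  have hpi : (fun z => ω z ^ i) = fun z => z ^ i * (h z ^ i) := by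
    funext z
    rw [hfac z, mul_pow]
  have hT : ∀ l ≤ i, tD l (fun z => ω z ^ i) 0 = if l = i then 1 else 0 := by
    intro l hl
    have hhi : DifferentiableAt ℂ (fun z => h z ^ i) 0 :=
      (hhd.differentiableAt ball_mem_nhds').fun_pow i
    rw [hpi, tD_pow_mul i hhi l hl]
    simp only
    rw [hh0, one_pow, mul_one]
    split_ifs with he
    · rw [he, Nat.sub_self, pow_zero]
    · exact zero_pow (by omega)
  have hpd : DifferentiableOn ℂ (fun z => ω z ^ i) (ball 0 (1 / 4)) := hω.pow i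
  refine ⟨fun l => if l < m then tD l f 0 else 0, tD m f, fun l => ?_, fun l hl => ?_,
    fun ζ hζ => ⟨?_, ?_⟩⟩
  · simp only
    split_ifs with hl
    · exact (tD_bound l hC hf hb 0 h0).trans (hpow l hl.le C hC)
    · rw [norm_zero]; positivity
  · simp only
    rw [if_pos (by omega), ← hT l hl]
    have e : tD l (fun z => f z - ω z ^ i) 0 = tD l f 0 - tD l (fun z => ω z ^ i) 0 :=
      congrFun (tD_sub l hf hpd) 0
    rw [← e, mul_assoc]
    exact (tD_bound l (by positivity) (hf.sub hpd) hd 0 h0).trans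
      (hpow l (by omega) (C * δ) (by positivity))
  · exact tD_bound m hC hf hb ζ (by rwa [mem_ball_zero_iff])
  · rw [taylor m f ζ]
    congr 1
    refine Finset.sum_congr rfl fun l hl => ?_
    change _ = (if l < m then tD l f 0 else 0) * ζ ^ l
    rw [if_pos (Finset.mem_range.mp hl)]

end Pool.Agent.H44.ATR
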